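import Pool.Agent.helper80.EN.Spec

set_option autoImplicit false

namespace Pool.Agent.helper80.EN

open Subgroup

universe u

namespace EXAaux

theorem com_mul {T : Type u} [Group T] (m n a : T) :
    n⁻¹ * com m a * n = com (m * n) a * (com n a)⁻¹ := by
  unfold com; group

theorem com_conj_left {T : Type u} [Group T] (m a : T) :
    a⁻¹ * com m a * a = com (a⁻¹ * m * a) a := by
  unfold com; group

theorem com_conj_right {T : Type u} [Group T] (m a : T) :
    a * com m a * a⁻¹ = com (a * m * a⁻¹) a := by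
  unfold com; group

theorem bra_le {T : Type u} [Group T] (M : Subgroup T) (hM : M.Normal) (a : T) : bra M a ≤ M := by
  unfold bra
  rw [closure_le]
  rintro x ⟨k, hk, rfl⟩
  have h1 : a⁻¹ * k * a ∈ M := by
    have := hM.conj_mem k hk a⁻¹
    simpa using this
  have h2 : com k a = k⁻¹ * (a⁻¹ * k * a) := by unfold com; group
  show com k a ∈ M
  rw [h2]
  exact M.mul_mem (M.inv_mem hk) h1

theorem bra_conj {T : Type u} [Group T] (M : Subgroup T) (a : T) (n : T) (hn : n ∈ M) (x : T)
    (hx : x ∈ bra M a) : n⁻¹ * x * n ∈ bra M a := by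
  have h : bra M a ≤ (bra M a).comap (MulAut.conj n⁻¹).toMonoidHom := by
    conv_lhs => unfold bra
    rw [closure_le]
    rintro y ⟨k, hk, rfl⟩
    show (MulAut.conj n⁻¹).toMonoidHom (com k a) ∈ bra M a
    have e : (MulAut.conj n⁻¹).toMonoidHom (com k a) = n⁻¹ * com k a * n := by
      simp [MulAut.conj_apply]
    rw [e, com_mul]
    exact (bra M a).mul_mem (subset_closure ⟨k * n, M.mul_mem hk hn, rfl⟩)
      ((bra M a).inv_mem (subset_closure ⟨n, hn, rfl⟩))
  have h1 := h hx
  have e : (MulAut.conj n⁻¹).toMonoidHom x = n⁻¹ * x * n := by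
    simp [MulAut.conj_apply]
  have h2 : (MulAut.conj n⁻¹).toMonoidHom x ∈ bra M a := h1
  rwa [e] at h2

theorem bra_conj_a {T : Type u} [Group T] (M : Subgroup T) (hM : M.Normal) (a : T) (x : T)
    (hx : x ∈ bra M a) : a⁻¹ * x * a ∈ bra M a ∧ a * x * a⁻¹ ∈ bra M a := by
  constructor
  · have h : bra M a ≤ (bra M a).comap (MulAut.conj a⁻¹).toMonoidHom := by
      conv_lhs => unfold bra
      rw [closure_le]
      rintro y ⟨k, hk, rfl⟩
      show (MulAut.conj a⁻¹).toMonoidHom (com k a) ∈ bra M a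
      have e : (MulAut.conj a⁻¹).toMonoidHom (com k a) = a⁻¹ * com k a * a := by
        simp [MulAut.conj_apply]
      rw [e, com_conj_left]
      refine subset_closure ⟨a⁻¹ * k * a, ?_, rfl⟩
      have := hM.conj_mem k hk a⁻¹
      simpa using this
    have h2 : (MulAut.conj a⁻¹).toMonoidHom x ∈ bra M a := h hx
    have e : (MulAut.conj a⁻¹).toMonoidHom x = a⁻¹ * x * a := by
      simp [MulAut.conj_apply]
    rwa [e] at h2
  · have h : bra M a ≤ (bra M a).comap (MulAut.conj a).toMonoidHom := by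
      conv_lhs => unfold bra
      rw [closure_le]
      rintro y ⟨k, hk, rfl⟩
      show (MulAut.conj a).toMonoidHom (com k a) ∈ bra M a
      have e : (MulAut.conj a).toMonoidHom (com k a) = a * com k a * a⁻¹ := by
        simp [MulAut.conj_apply]
      rw [e, com_conj_right]
      exact subset_closure ⟨a * k * a⁻¹, hM.conj_mem k hk a, rfl⟩
    have h2 : (MulAut.conj a).toMonoidHom x ∈ bra M a := h hx
    have e : (MulAut.conj a).toMonoidHom x = a * x * a⁻¹ := by
      simp [MulAut.conj_apply]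
    rwa [e] at h2

/-- a subgroup normalised by `K` and `a` is normal if `K <a> = T`. -/
theorem normal_of {T : Type u} [Group T] (K V : Subgroup T) (a : T) (hT : K ⊔ zpowers a = ⊤)
    (h1 : ∀ k ∈ K, ∀ x ∈ V, k⁻¹ * x * k ∈ V)
    (h2 : ∀ x ∈ V, a⁻¹ * x * a ∈ V ∧ a * x * a⁻¹ ∈ V) : V.Normal := by
  have hK : K ≤ normalizer (V : Set T) := by
    intro k hk
    rw [mem_normalizer_iff]
    intro x
    constructor
    · intro hx
      have := h1 k⁻¹ (K.inv_mem hk) x hx
      simpa using this
    · intro hx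
      have := h1 k hk _ hx
      have e : k⁻¹ * (k * x * k⁻¹) * k = x := by group
      rwa [e] at this
  have ha : a ∈ normalizer (V : Set T) := by
    rw [mem_normalizer_iff]
    intro x
    constructor
    · intro hx
      exact (h2 x hx).2
    · intro hx
      have := (h2 _ hx).1
      have e : a⁻¹ * (a * x * a⁻¹) * a = x := by group
      rwa [e] at this
  have hle : K ⊔ zpowers a ≤ normalizer (V : Set T) := sup_le hK (by rwa [zpowers_le])
  rw [hT, top_le_iff] at hle
  exact normalizer_eq_top_iff.mp hle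

theorem locNilp_range (hTRF : TRF_stmt.{u}) {D A B : Type u} [Group D] [Group A] [Group B]
    (f1 : D →* A) (f2 : D →* B) (hk : f2.ker ≤ f1.ker) (h : LocNilp f2.range) :
    LocNilp f1.range := by
  have hT := hTRF B
  obtain ⟨-, -, -, -, -, -, h7⟩ := hT
  have h8 : LocNilp (⊤ : Subgroup f2.range) := by
    rw [h7 f2.range ⊤]
    have e : (⊤ : Subgroup f2.range).map f2.range.subtype = f2.range := by
      rw [← MonoidHom.range_eq_map, range_subtype]
    rwa [e]
  let g : f2.range →* A := (QuotientGroup.lift f2.ker f1 (fun x hx => hk hx)).comp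
    (QuotientGroup.quotientKerEquivRange f2).symm.toMonoidHom
  have hg : ∀ d : D, g ⟨f2 d, ⟨d, rfl⟩⟩ = f1 d := by
    intro d
    have e : (QuotientGroup.quotientKerEquivRange f2).symm ⟨f2 d, ⟨d, rfl⟩⟩ =
        (QuotientGroup.mk d : D ⧸ f2.ker) := by
      rw [MulEquiv.symm_apply_eq]
      rfl
    show (QuotientGroup.lift f2.ker f1 (fun x hx => hk hx))
      ((QuotientGroup.quotientKerEquivRange f2).symm ⟨f2 d, ⟨d, rfl⟩⟩) = f1 d
    rw [e]
    rfl
  have h9 := (hTRF f2.range).2.1 A g ⊤ h8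
  have e : (⊤ : Subgroup f2.range).map g = f1.range := by
    ext x
    constructor
    · rintro ⟨⟨y, d, rfl⟩, -, rfl⟩
      exact ⟨d, (hg d).symm⟩
    · rintro ⟨d, rfl⟩
      exact ⟨⟨f2 d, ⟨d, rfl⟩⟩, mem_top _, hg d⟩
  rwa [e] at h9

theorem locNilp_comm (hTRF : TRF_stmt.{u}) {A : Type u} [Group A] (H : Subgroup A)
    (h : ∀ x ∈ H, ∀ y ∈ H, x * y = y * x) : LocNilp H := by
  refine (hTRF A).2.2.2.2.1 H ?_
  letI : CommGroup H := { (inferInstance : Group H) with
    mul_comm := fun x y => Subtype.ext (h x x.2 y y.2) }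
  exact CommGroup.isNilpotent

end EXAaux

open EXAaux in
theorem EXA (hGRU : GRU_stmt.{u}) (hNAE : NAE_stmt.{u}) (hHPR : HPR_stmt.{u})
    (hTRF : TRF_stmt.{u}) (hBAS : BAS_stmt.{u}) : EXA_stmt.{u} := by
  intro T _ K M hKn hMn a hMK hT hE hMa hKa
  have hmapE : ∀ (L : Type u) [Group L] (f : T →* L) (X : Subgroup T), X ≤ K →
      EngelOn (X.map f) (f a) := by
    intro L _ f X hX y hy
    obtain ⟨x, hx, rfl⟩ := hy
    obtain ⟨n, hn⟩ := hE x (hX hx)
    refine ⟨n, ?_⟩
    rw [← (hBAS T).2.1 L f x a n, hn, map_one]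
  -- the radical of `M`
  obtain ⟨hHn, hHl, hHu, hHc⟩ := hHPR M
  set H1 : Subgroup T := (HP M).map M.subtype with hH1
  haveI : (HP M).Characteristic := hHc
  haveI hH1n : H1.Normal := inferInstance
  have hH1l : LocNilp H1 := ((hTRF T).2.2.2.2.2.2 M (HP M)).mp hHl
  have hH1M : H1 ≤ M := by
    rintro x ⟨y, -, rfl⟩
    exact y.2
  have hMaH : bra M a ≤ H1 := by
    have hle : bra M a ≤ M := bra_le M hMn a
    have hN : ((bra M a).subgroupOf M).Normal := by
      refine ⟨fun x hx g => ?_⟩
      rw [mem_subgroupOf] at hx ⊢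
      have := bra_conj M a (g : T)⁻¹ (M.inv_mem g.2) x hx
      simpa using this
    have hL : LocNilp ((bra M a).subgroupOf M) := by
      rw [(hTRF T).2.2.2.2.2.2 M _]
      exact (hTRF T).1 _ _ (map_subgroupOf_eq_of_le hle).le hMa
    have h1 := hHu _ hN hL
    have h2 := map_mono (f := M.subtype) h1
    rwa [map_subgroupOf_eq_of_le hle] at h2
  -- the centraliser of `M` modulo `H1`
  haveI hMH : (M.map (QuotientGroup.mk' H1)).Normal :=
    hMn.map _ (QuotientGroup.mk'_surjective H1)
  set C : Subgroup T := (centralizer ((M.map (QuotientGroup.mk' H1) : Subgroup (T ⧸ H1)) :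
    Set (T ⧸ H1))).comap (QuotientGroup.mk' H1) with hC
  haveI hCn : C.Normal := inferInstance
  have hCmem : ∀ g : T, g ∈ C ↔ ∀ m ∈ M, QuotientGroup.mk' H1 m * QuotientGroup.mk' H1 g =
      QuotientGroup.mk' H1 g * QuotientGroup.mk' H1 m := by
    intro g
    rw [hC, mem_comap, mem_centralizer_iff]
    constructor
    · intro h m hm
      exact h _ ⟨m, hm, rfl⟩
    · rintro h _ ⟨m, hm, rfl⟩
      exact h m hm
  have haC : a ∈ C := by
    rw [hCmem]
    intro m hm
    have h1 : com m a ∈ H1 := hMaH (subset_closure ⟨m, hm, rfl⟩)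
    rw [← map_mul, ← map_mul]
    have h2 : QuotientGroup.mk' H1 (a * m) = QuotientGroup.mk' H1 (m * a) := by
      rw [QuotientGroup.mk'_eq_mk']
      refine ⟨com m a, h1, ?_⟩
      unfold com
      group
    exact h2.symm
  -- `V = [K, a] <a>`
  have hBn : (bra K a).Normal := normal_of K (bra K a) a hT
    (fun k hk x hx => bra_conj K a k hk x hx) (fun x hx => bra_conj_a K hKn a x hx)
  set V : Subgroup T := bra K a ⊔ zpowers a with hV
  have haV : a ∈ V := (le_sup_right : zpowers a ≤ V) (mem_zpowers a)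
  have hVn : V.Normal := by
    refine normal_of K V a hT ?_ ?_
    · intro k hk x hx
      have h : V ≤ V.comap (MulAut.conj k⁻¹).toMonoidHom := by
        refine sup_le ?_ ?_
        · intro y hy
          show (MulAut.conj k⁻¹).toMonoidHom y ∈ V
          have e : (MulAut.conj k⁻¹).toMonoidHom y = k⁻¹ * y * k := by
            simp [MulAut.conj_apply]
          rw [e]
          exact (le_sup_left : bra K a ≤ V) (bra_conj K a k hk y hy)
        · rw [zpowers_le]
          show (MulAut.conj k⁻¹).toMonoidHom a ∈ V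
          have e : (MulAut.conj k⁻¹).toMonoidHom a = a * (com k a)⁻¹ := by
            simp only [MulEquiv.toMonoidHom_eq_coe, MonoidHom.coe_coe, MulAut.conj_apply, com]
            group
          rw [e]
          exact V.mul_mem haV (V.inv_mem ((le_sup_left : bra K a ≤ V)
            (subset_closure ⟨k, hk, rfl⟩)))
      have h2 : (MulAut.conj k⁻¹).toMonoidHom x ∈ V := h hx
      have e : (MulAut.conj k⁻¹).toMonoidHom x = k⁻¹ * x * k := by
        simp [MulAut.conj_apply]
      rwa [e] at h2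
    · intro x hx
      exact ⟨V.mul_mem (V.mul_mem (V.inv_mem haV) hx) haV,
        V.mul_mem (V.mul_mem haV hx) (V.inv_mem haV)⟩
  have hVl : LocNilp (V.map (QuotientGroup.mk' M)) := by
    rw [hV, Subgroup.map_sup, MonoidHom.map_zpowers]
    refine hNAE (T ⧸ M) _ _ (hBn.map _ (QuotientGroup.mk'_surjective M)) hKa ?_
    exact hmapE (T ⧸ M) (QuotientGroup.mk' M) (bra K a) (bra_le K hKn a)
  -- `D = C ⊓ (V M)`, `Z = C ⊓ M`
  set D : Subgroup T := C ⊓ (V ⊔ M) with hD
  haveI hDn : D.Normal := by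
    haveI := hVn
    haveI : (V ⊔ M).Normal := inferInstance
    exact inferInstance
  have haD : a ∈ D := ⟨haC, (le_sup_left : V ≤ V ⊔ M) haV⟩
  set Z : Subgroup T := C ⊓ M with hZ
  haveI hZn : Z.Normal := inferInstance
  have hZD : Z ≤ D := inf_le_inf le_rfl le_sup_right
  have hDM : D.map (QuotientGroup.mk' M) ≤ V.map (QuotientGroup.mk' M) := by
    refine (map_mono inf_le_right).trans ?_
    rw [Subgroup.map_sup]
    refine sup_le le_rfl ?_
    rw [QuotientGroup.map_mk'_self]
    exact bot_le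
  haveI hN2n : (Z.map (QuotientGroup.mk' H1)).Normal :=
    hZn.map _ (QuotientGroup.mk'_surjective H1)
  haveI hD2n : (D.map (QuotientGroup.mk' H1)).Normal :=
    hDn.map _ (QuotientGroup.mk'_surjective H1)
  have hN2l : LocNilp (Z.map (QuotientGroup.mk' H1)) := by
    refine locNilp_comm hTRF _ ?_
    rintro _ ⟨x, hx, rfl⟩ _ ⟨y, hy, rfl⟩
    exact (hCmem y).mp hy.1 x hx.2
  have hD2l : LocNilp ((D.map (QuotientGroup.mk' H1)).map
      (QuotientGroup.mk' (Z.map (QuotientGroup.mk' H1)))) := by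
    have h1 := locNilp_range hTRF
      ((QuotientGroup.mk' (Z.map (QuotientGroup.mk' H1))).comp
        ((QuotientGroup.mk' H1).comp D.subtype))
      ((QuotientGroup.mk' M).comp D.subtype) ?_ ?_
    · have e : ((QuotientGroup.mk' (Z.map (QuotientGroup.mk' H1))).comp
        ((QuotientGroup.mk' H1).comp D.subtype)).range = ((D.map (QuotientGroup.mk' H1)).map
      (QuotientGroup.mk' (Z.map (QuotientGroup.mk' H1)))) := by
        rw [MonoidHom.range_comp, MonoidHom.range_comp, range_subtype]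
      rwa [e] at h1
    · intro d hd
      rw [MonoidHom.mem_ker] at hd ⊢
      have h2 : (d : T) ∈ M := by
        rwa [MonoidHom.comp_apply, QuotientGroup.mk'_apply, QuotientGroup.eq_one_iff] at hd
      have h3 : (d : T) ∈ Z := ⟨d.2.1, h2⟩
      rw [MonoidHom.comp_apply, QuotientGroup.mk'_apply, QuotientGroup.eq_one_iff]
      exact ⟨(d : T), h3, rfl⟩
    · rw [MonoidHom.range_comp, range_subtype]
      exact (hTRF (T ⧸ M)).1 _ _ hDM hVl
  have ha2 : QuotientGroup.mk' H1 a ∈ HP (T ⧸ H1) :=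
    hGRU (T ⧸ H1) (Z.map (QuotientGroup.mk' H1)) (D.map (QuotientGroup.mk' H1)) (map_mono hZD)
      hN2l hD2l _ ⟨a, haD, rfl⟩
      (hmapE (T ⧸ H1) (QuotientGroup.mk' H1) Z (inf_le_right.trans hMK))
  obtain ⟨hQn, hQl, -, -⟩ := hHPR (T ⧸ H1)
  haveI := hQn
  refine hGRU T H1 ((HP (T ⧸ H1)).comap (QuotientGroup.mk' H1)) ?_ hH1l ?_ a ha2 ?_
  · intro x hx
    rw [mem_comap]
    have e : QuotientGroup.mk' H1 x = 1 := by
      rw [QuotientGroup.mk'_apply, QuotientGroup.eq_one_iff]
      exact hx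
    rw [e]
    exact one_mem _
  · rw [map_comap_eq_self_of_surjective (QuotientGroup.mk'_surjective H1)]
    exact hQl
  · intro x hx
    exact hE x (hMK (hH1M hx))

end Pool.Agent.helper80.EN
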